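import Mathlib

set_option autoImplicit false

/-! Tricolor percolation on the body-centred cubic lattice: edges, vertices, infinite tricolor
paths as infinite components, and their basic combinatorics. -/

namespace Pool.Agent.Helper939.Tri

open Relation

/-- Points of `ℤ³`. -/
abbrev Pt := Fin 3 → ℤ

/-- A cell of the tessellation, represented by its centre: a point of
`2ℤ³ ∪ (2ℤ³ + (1,1,1))`. -/
def Cell (v : Pt) : Prop := (∀ i, Even (v i)) ∨ (∀ i, Odd (v i))

/-- Two cells are adjacent when their difference is `±2` times a coordinate vector or has all its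
coordinates equal to `±1`. -/
def Adj (v w : Pt) : Prop :=
  Cell v ∧ Cell w ∧
    ((∃ i, |v i - w i| = 2 ∧ ∀ j, j ≠ i → v j = w j) ∨ (∀ i, |v i - w i| = 1))

/-- A set of mutually adjacent cells. -/
def Clique (Q : Finset Pt) : Prop := ∀ v ∈ Q, ∀ w ∈ Q, v ≠ w → Adj v w

/-- A vertex of the tessellation: a quadruple of mutually adjacent cells. -/
def IsVertex (Q : Finset Pt) : Prop := Q.card = 4 ∧ Clique Q

/-- A tricolor edge of the colouring `ω`: a triple of mutually adjacent cells carrying all the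
three colours. -/
def TricolorEdge (ω : Pt → Fin 3) (T : Finset Pt) : Prop :=
  T.card = 3 ∧ Clique T ∧ ∀ c : Fin 3, ∃ v ∈ T, ω v = c

/-- Two tricolor edges of `ω` which share an endpoint (a vertex of the tessellation). -/
def Linked (ω : Pt → Fin 3) (T T' : Finset Pt) : Prop :=
  TricolorEdge ω T ∧ TricolorEdge ω T' ∧ ∃ Q, IsVertex Q ∧ T ⊆ Q ∧ T' ⊆ Q

/-- The component of the tricolor edge `T` in the union of the tricolor edges. -/
def component (ω : Pt → Fin 3) (T : Finset Pt) : Set (Finset Pt) :=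
  {T' | ReflTransGen (Linked ω) T T'}

/-- An infinite tricolor path: an infinite component of the union of the tricolor edges. -/
def InfinitePath (ω : Pt → Fin 3) (P : Set (Finset Pt)) : Prop :=
  P.Infinite ∧ ∃ T, TricolorEdge ω T ∧ P = component ω T

/-- The cells of the cube of centre `x` and half-side `r`. -/
def Cube (x : Pt) (r : ℕ) : Set Pt := {v | ∀ i, |v i - x i| ≤ (r : ℤ)}

/-- `P` avoids the set `F` of cells: no edge of `P` is incident to a cell of `F`. -/
def Avoids (P : Set (Finset Pt)) (F : Set Pt) : Prop := ∀ T ∈ P, ∀ v ∈ T, v ∉ F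

/-! ### Elementary facts -/

lemma Adj.symm {v w : Pt} (h : Adj v w) : Adj w v := by
  obtain ⟨h1, h2, h | h⟩ := h
  · obtain ⟨i, hi, hj⟩ := h
    exact ⟨h2, h1, Or.inl ⟨i, by rw [abs_sub_comm]; exact hi, fun j hne => (hj j hne).symm⟩⟩
  · exact ⟨h2, h1, Or.inr fun i => by rw [abs_sub_comm]; exact h i⟩

lemma Adj.dist {v w : Pt} (h : Adj v w) (i : Fin 3) : |v i - w i| ≤ 2 := by
  obtain ⟨-, -, h | h⟩ := h
  · obtain ⟨j, hj, hk⟩ := h
    by_cases hij : i = j
    · subst hij; omega
    · rw [hk i hij]; simp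
  · rw [h i]; norm_num

lemma Linked.symm {ω : Pt → Fin 3} {T T' : Finset Pt} (h : Linked ω T T') : Linked ω T' T := by
  obtain ⟨h1, h2, Q, hQ, h3, h4⟩ := h
  exact ⟨h2, h1, Q, hQ, h4, h3⟩

lemma reach_symm {ω : Pt → Fin 3} {T T' : Finset Pt} (h : ReflTransGen (Linked ω) T T') :
    ReflTransGen (Linked ω) T' T := by
  induction h with
  | refl => exact ReflTransGen.refl
  | tail _ h2 ih => exact ReflTransGen.head h2.symm ih

lemma mem_component_self (ω : Pt → Fin 3) (T : Finset Pt) : T ∈ component ω T :=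
  ReflTransGen.refl

lemma component_eq {ω : Pt → Fin 3} {T T' : Finset Pt} (h : T' ∈ component ω T) :
    component ω T' = component ω T := by
  ext S
  exact ⟨fun hS => ReflTransGen.trans h hS, fun hS => ReflTransGen.trans (reach_symm h) hS⟩

lemma tricolor_of_mem {ω : Pt → Fin 3} {T T' : Finset Pt} (hT : TricolorEdge ω T)
    (h : T' ∈ component ω T) : TricolorEdge ω T' := by
  have h' : ReflTransGen (Linked ω) T T' := h
  cases h' with
  | refl => exact hT
  | tail _ h2 => exact h2.2.1

lemma TricolorEdge.congr {ω ω' : Pt → Fin 3} {T : Finset Pt} (h : TricolorEdge ω T)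
    (hc : ∀ v ∈ T, ω v = ω' v) : TricolorEdge ω' T := by
  obtain ⟨h1, h2, h3⟩ := h
  refine ⟨h1, h2, fun c => ?_⟩
  obtain ⟨v, hv, hvc⟩ := h3 c
  exact ⟨v, hv, by rw [← hc v hv, hvc]⟩

/-- At each endpoint of a tricolor edge, the fourth cell belongs to another tricolor edge. -/
lemma exists_linked {ω : Pt → Fin 3} {T Q : Finset Pt} (hT : TricolorEdge ω T) (hQ : IsVertex Q)
    (hTQ : T ⊆ Q) {d : Pt} (hd : d ∈ Q) (hdT : d ∉ T) :
    ∃ T', Linked ω T T' ∧ d ∈ T' := by
  classical
  obtain ⟨t, ht, htc⟩ := hT.2.2 (ω d)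
  refine ⟨insert d (T.erase t), ⟨hT, ⟨?_, ?_, ?_⟩, Q, hQ, hTQ, ?_⟩, Finset.mem_insert_self _ _⟩
  · rw [Finset.card_insert_of_notMem (fun h => hdT (Finset.mem_of_mem_erase h)),
      Finset.card_erase_of_mem ht, hT.1]
  · intro v hv w hw hvw
    refine hQ.2 v ?_ w ?_ hvw
    · rcases Finset.mem_insert.1 hv with rfl | hv
      · exact hd
      · exact hTQ (Finset.mem_of_mem_erase hv)
    · rcases Finset.mem_insert.1 hw with rfl | hw
      · exact hd
      · exact hTQ (Finset.mem_of_mem_erase hw)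
  · intro c
    by_cases hc : c = ω d
    · exact ⟨d, Finset.mem_insert_self _ _, hc.symm⟩
    · obtain ⟨v, hv, hvc⟩ := hT.2.2 c
      refine ⟨v, Finset.mem_insert_of_mem (Finset.mem_erase.2 ⟨?_, hv⟩), hvc⟩
      rintro rfl
      exact hc (hvc.symm.trans htc)
  · intro v hv
    rcases Finset.mem_insert.1 hv with rfl | hv
    · exact hd
    · exact hTQ (Finset.mem_of_mem_erase hv)

/-- An infinite path avoiding `F` remains an infinite path when the colours in `F` are changed. -/
lemma InfinitePath.congr {ω ω' : Pt → Fin 3} {P : Set (Finset Pt)} {F : Set Pt}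
    (hP : InfinitePath ω P) (hF : Avoids P F) (hω : ∀ v, v ∉ F → ω v = ω' v) :
    InfinitePath ω' P := by
  classical
  obtain ⟨hinf, T, hT, rfl⟩ := hP
  refine ⟨hinf, T, hT.congr fun v hv => hω v (hF T (mem_component_self ω T) v hv), ?_⟩
  have key : ∀ S, S ∈ component ω T → TricolorEdge ω' S := fun S hS =>
    (tricolor_of_mem hT hS).congr fun v hv => hω v (hF S hS v hv)
  ext S
  constructor
  · intro hS
    have hS' : ReflTransGen (Linked ω) T S := hS
    clear hS
    induction hS' with
    | refl => exact ReflTransGen.refl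
    | @tail b c hb hbc ih =>
      refine ReflTransGen.tail ih ⟨key b hb, key c (ReflTransGen.tail hb hbc), hbc.2.2⟩
  · intro hS
    have hS' : ReflTransGen (Linked ω') T S := hS
    clear hS
    induction hS' with
    | refl => exact ReflTransGen.refl
    | @tail b c _ hbc ih =>
      obtain ⟨_, hc, Q, hQ, hbQ, hcQ⟩ := hbc
      have hbt : TricolorEdge ω b := tricolor_of_mem hT ih
      have hcF : ∀ v ∈ c, v ∉ F := by
        intro v hv
        by_cases hvb : v ∈ b
        · exact hF b ih v hvb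
        · obtain ⟨T', hl, hvT'⟩ := exists_linked hbt hQ hbQ (hcQ hv) hvb
          exact hF T' (ReflTransGen.tail ih hl) v hvT'
      have hct : TricolorEdge ω c := hc.congr fun v hv => (hω v (hcF v hv)).symm
      exact ReflTransGen.tail ih ⟨hbt, hct, Q, hQ, hbQ, hcQ⟩

/-! ### Cubes -/

lemma cube_finite (x : Pt) (r : ℕ) : (Cube x r).Finite := by
  have : Cube x r ⊆ (Set.Icc (fun i => x i - r) (fun i => x i + r) : Set Pt) := by
    intro v hv
    constructor
    · intro i; have := abs_le.1 (hv i); simp only; omega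
    · intro i; have := abs_le.1 (hv i); simp only; omega
  exact (Set.finite_Icc _ _).subset this

/-- Edges (triples of mutually adjacent cells) meeting a cube form a finite set. -/
lemma edges_finite (x : Pt) (r : ℕ) :
    {T : Finset Pt | Clique T ∧ ∃ v ∈ T, v ∈ Cube x r}.Finite := by
  have hfin := cube_finite x (r + 2)
  refine (hfin.toFinset.powerset.finite_toSet).subset ?_
  rintro T ⟨hT, v, hv, hvx⟩
  simp only [Finset.coe_powerset, Set.mem_preimage, Set.mem_powerset_iff, Finset.coe_subset]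
  intro w hw
  rw [Set.Finite.mem_toFinset]
  intro i
  by_cases hvw : v = w
  · subst hvw
    have := hvx i
    push_cast
    omega
  · have h1 := (hT v hv w hw hvw).dist i
    have h2 := hvx i
    rw [abs_le] at h1 h2 ⊢
    push_cast
    omega

lemma exists_cube (v : Pt) : ∃ r : ℕ, v ∈ Cube 0 r := by
  refine ⟨(|v 0| + |v 1| + |v 2|).toNat, fun i => ?_⟩
  have h0 := abs_nonneg (v 0)
  have h1 := abs_nonneg (v 1)
  have h2 := abs_nonneg (v 2)
  simp only [Pi.zero_apply, sub_zero]
  rw [Int.toNat_of_nonneg (by omega)]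
  fin_cases i <;> simp <;> omega

lemma cube_mono {x : Pt} {r s : ℕ} (h : r ≤ s) : Cube x r ⊆ Cube x s := by
  intro v hv i
  have := hv i
  omega

/-- some infinite path avoids the set `F` -/
def Av (F : Set Pt) : Set (Pt → Fin 3) := {ω | ∃ P, InfinitePath ω P ∧ Avoids P F}

lemma Av_anti {F G : Set Pt} (h : F ⊆ G) : Av G ⊆ Av F := by
  rintro ω ⟨P, hP, hG⟩
  exact ⟨P, hP, fun T hT v hv hF => hG T hT v hv (h hF)⟩

lemma Av_congr {F : Set Pt} {ω ω' : Pt → Fin 3} (hω : ∀ v, v ∉ F → ω v = ω' v)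
    (h : ω ∈ Av F) : ω' ∈ Av F := by
  obtain ⟨P, hP, hF⟩ := h
  exact ⟨P, hP.congr hF hω, hF⟩

/-- Infinite paths meeting a given cube are finitely many. -/
lemma paths_meeting_finite (ω : Pt → Fin 3) (x : Pt) (r : ℕ) :
    {P | InfinitePath ω P ∧ ¬ Avoids P (Cube x r)}.Finite := by
  refine ((edges_finite x r).image (component ω)).subset ?_
  rintro P ⟨⟨_, T, hT, rfl⟩, hA⟩
  unfold Avoids at hA
  push Not at hA
  obtain ⟨S, hS, v, hv, hvx⟩ := hA
  exact ⟨S, ⟨(tricolor_of_mem hT hS).2.1, v, hv, hvx⟩, component_eq hS⟩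

/-- There are infinitely many infinite paths iff every cube is avoided by one of them. -/
lemma infinite_iff (ω : Pt → Fin 3) :
    {P | InfinitePath ω P}.Infinite ↔ ∀ r : ℕ, ω ∈ Av (Cube 0 r) := by
  constructor
  · intro h r
    by_contra hcon
    refine h ((paths_meeting_finite ω 0 r).subset ?_)
    intro P hP
    exact ⟨hP, fun hA => hcon ⟨P, hP, hA⟩⟩
  · intro h hfin
    have : ∃ r : ℕ, ∀ P ∈ hfin.toFinset, ¬ Avoids P (Cube 0 r) := by
      have h1 : ∀ P ∈ hfin.toFinset, ∃ r : ℕ, ¬ Avoids P (Cube 0 r) := by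
        intro P hP
        obtain ⟨_, T, hT, rfl⟩ := (Set.Finite.mem_toFinset hfin).1 hP
        obtain ⟨v, hv, -⟩ := hT.2.2 0
        obtain ⟨r, hr⟩ := exists_cube v
        exact ⟨r, fun hA => hA T (mem_component_self ω T) v hv hr⟩
      choose! f hf using h1
      refine ⟨hfin.toFinset.sup f, fun P hP hA => hf P hP ?_⟩
      intro T hT v hv hvr
      exact hA T hT v hv (cube_mono (Finset.le_sup hP) hvr)
    obtain ⟨r, hr⟩ := this
    obtain ⟨P, hP, hA⟩ := h r
    exact hr P ((Set.Finite.mem_toFinset hfin).2 hP) hA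

end Pool.Agent.Helper939.Tri
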