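import Pool.Agent.Helper939_Tri.Meas

set_option autoImplicit false

/-! Tricolor percolation: the existence of an infinite path has probability zero or one. -/

namespace Pool.Agent.Helper939.Tri

open MeasureTheory ProbabilityTheory Relation Filter

/-- The existence of an infinite path is not affected by a finite change of the colouring. -/
lemma exists_path_congr {F : Set Pt} (hF : F.Finite) {ω ω' : Pt → Fin 3}
    (hω : ∀ v, v ∉ F → ω v = ω' v) (h : ∃ P, InfinitePath ω P) : ∃ P, InfinitePath ω' P := by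
  classical
  obtain ⟨R, hR⟩ : ∃ R : ℕ, F ⊆ Cube 0 R := by
    choose f hf using exists_cube
    refine ⟨hF.toFinset.sup f, fun v hv => ?_⟩
    exact cube_mono (Finset.le_sup ((Set.Finite.mem_toFinset hF).2 hv)) (hf v)
  obtain ⟨P, hP⟩ := h
  by_cases hA : Avoids P (Cube 0 R)
  · exact ⟨P, hP.congr hA fun v hv => hω v fun hvF => hv (hR hvF)⟩
  obtain ⟨hinf, T0, hT0, rfl⟩ := hP
  -- edges meeting the cube
  set B : Set (Finset Pt) := {T | Clique T ∧ ∃ v ∈ T, v ∈ Cube 0 R} with hB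
  have hBfin : B.Finite := edges_finite 0 R
  have hcl : ∀ {T}, T ∈ component ω T0 → TricolorEdge ω T := fun hT => tricolor_of_mem hT0 hT
  -- the linked relation outside the cube
  let L : Finset Pt → Finset Pt → Prop := fun T S => Linked ω T S ∧ T ∉ B ∧ S ∉ B
  have hL' : ∀ {T S}, L T S → Linked ω' T S := by
    rintro T S ⟨⟨h1, h2, h3⟩, hT, hS⟩
    have out : ∀ {T : Finset Pt}, TricolorEdge ω T → T ∉ B → ∀ v ∈ T, ω v = ω' v := by
      intro T hT hTB v hv
      refine hω v fun hvF => hTB ⟨hT.2.1, v, hv, hR hvF⟩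
    exact ⟨h1.congr (out h1 hT), h2.congr (out h2 hS), h3⟩
  -- gates
  set G : Set (Finset Pt) := {T | Clique T ∧ ∃ v ∈ T, v ∈ Cube 0 (R + 4)} with hG
  have hGfin : G.Finite := edges_finite 0 (R + 4)
  unfold Avoids at hA
  push Not at hA
  obtain ⟨S0, hS0, v0, hv0, hv0R⟩ := hA
  have hS0B : S0 ∈ B := ⟨(hcl hS0).2.1, v0, hv0, hv0R⟩
  have hgate : ∀ T, T ∈ component ω T0 → T ∉ B →
      ∃ S, S ∈ G ∧ S ∉ B ∧ TricolorEdge ω S ∧ ReflTransGen L S T := by
    intro T hT hTB
    have h1 : ReflTransGen (Linked ω) S0 T := by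
      have : T ∈ component ω S0 := by rw [component_eq hS0]; exact hT
      exact this
    clear hT
    induction h1 with
    | refl => exact absurd hS0B hTB
    | @tail b c hb hbc ih =>
      by_cases hbB : b ∈ B
      · refine ⟨c, ?_, hTB, hbc.2.1, ReflTransGen.refl⟩
        obtain ⟨_, v, hv, hvR⟩ := hbB
        obtain ⟨h2, h3, Q, hQ, hbQ, hcQ⟩ := hbc
        obtain ⟨w, hw, -⟩ := h3.2.2 0
        refine ⟨h3.2.1, w, hw, fun i => ?_⟩
        have h4 := hvR i
        by_cases hvw : v = w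
        · subst hvw; push_cast; omega
        · have h5 := (hQ.2 v (hbQ hv) w (hcQ hw) hvw).dist i
          rw [abs_le] at h4 h5 ⊢
          push_cast
          omega
      · obtain ⟨S, hS1, hS2, hS3, hS4⟩ := ih hbB
        exact ⟨S, hS1, hS2, hS3, hS4.tail ⟨hbc, hbB, hTB⟩⟩
  -- pigeonhole
  have hcover : component ω T0 ⊆ B ∪ ⋃ S ∈ {S | S ∈ G ∧ S ∉ B ∧ TricolorEdge ω S},
      {T | ReflTransGen L S T} := by
    intro T hT
    by_cases hTB : T ∈ B
    · exact Or.inl hTB
    · obtain ⟨S, h1, h2, h3, h4⟩ := hgate T hT hTB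
      right
      simp only [Set.mem_iUnion]
      exact ⟨S, ⟨h1, h2, h3⟩, h4⟩
  have hex : ∃ S, (S ∈ G ∧ S ∉ B ∧ TricolorEdge ω S) ∧ {T | ReflTransGen L S T}.Infinite := by
    by_contra hcon
    push Not at hcon
    apply hinf
    refine (hBfin.union ?_).subset hcover
    refine Set.Finite.biUnion (hGfin.subset fun S hS => hS.1) ?_
    intro S hS
    exact hcon S hS
  obtain ⟨S, ⟨hSG, hSB, hSt⟩, hSinf⟩ := hex
  refine ⟨component ω' S, hSinf.mono ?_, S, ?_, rfl⟩
  · intro T hT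
    have hT' : ReflTransGen L S T := hT
    show ReflTransGen (Linked ω') S T
    clear hT
    induction hT' with
    | refl => exact ReflTransGen.refl
    | tail _ h2 ih => exact ih.tail (hL' h2)
  · exact hSt.congr fun v hv => hω v fun hvF => hSB ⟨hSt.2.1, v, hv, hR hvF⟩

lemma Av_empty : Av ∅ = {ω : Pt → Fin 3 | ∃ P, InfinitePath ω P} := by
  ext ω
  constructor
  · rintro ⟨P, hP, -⟩; exact ⟨P, hP⟩
  · rintro ⟨P, hP⟩; exact ⟨P, hP, fun _ _ _ _ h => h⟩

lemma meas_exists_path : MeasurableSet {ω : Pt → Fin 3 | ∃ P, InfinitePath ω P} := by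
  rw [← Av_empty]; exact meas_Av ∅

lemma exists_zero_one (p : PMF (Fin 3)) :
    Pr p {ω | ∃ P, InfinitePath ω P} = 0 ∨ Pr p {ω | ∃ P, InfinitePath ω P} = 1 :=
  zero_one p meas_exists_path fun _ hF _ _ hω h => exists_path_congr hF hω h

end Pool.Agent.Helper939.Tri
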