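import Pool.Agent.Helper939_Tri.Basic

set_option autoImplicit false

/-! Tricolor percolation: measurability, the zero-one law, translation invariance. -/

namespace Pool.Agent.Helper939.Tri

open MeasureTheory ProbabilityTheory Relation Filter

/-- The law of the colouring for the colour probabilities `p`: all cells are independent with
law `p` (points which are not cells are coloured as well but never used). -/
noncomputable def Pr (p : PMF (Fin 3)) : Measure (Pt → Fin 3) :=
  Measure.infinitePi (fun _ : Pt => p.toMeasure)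

instance (p : PMF (Fin 3)) : IsProbabilityMeasure (Pr p) := by unfold Pr; infer_instance

/-! ### Measurability -/

lemma meas_color (v : Pt) (c : Fin 3) : MeasurableSet {ω : Pt → Fin 3 | ω v = c} :=
  measurableSet_eq_fun (measurable_pi_apply v) measurable_const

lemma meas_edge (T : Finset Pt) : MeasurableSet {ω : Pt → Fin 3 | TricolorEdge ω T} := by
  have h : {ω : Pt → Fin 3 | TricolorEdge ω T} =
      {_ω : Pt → Fin 3 | T.card = 3 ∧ Clique T} ∩ ⋂ c : Fin 3, ⋃ v ∈ T, {ω | ω v = c} := by
    ext ω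
    simp only [TricolorEdge, Set.mem_ofPred_eq, Set.mem_inter_iff, Set.mem_iInter, Set.mem_iUnion,
      exists_prop, and_assoc]
  rw [h]
  exact (MeasurableSet.const _).inter (MeasurableSet.iInter fun c =>
    Finset.measurableSet_biUnion _ fun v _ => meas_color v c)

lemma meas_linked (T T' : Finset Pt) : MeasurableSet {ω : Pt → Fin 3 | Linked ω T T'} :=
  (meas_edge T).inter ((meas_edge T').inter (MeasurableSet.const _))

/-- reachable in `n` steps -/
def reachN (ω : Pt → Fin 3) (T : Finset Pt) : ℕ → Finset Pt → Prop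
  | 0, T' => T' = T
  | n + 1, T' => ∃ S, reachN ω T n S ∧ Linked ω S T'

lemma reach_iff (ω : Pt → Fin 3) (T T' : Finset Pt) :
    ReflTransGen (Linked ω) T T' ↔ ∃ n, reachN ω T n T' := by
  constructor
  · intro h
    induction h with
    | refl => exact ⟨0, rfl⟩
    | @tail b c _ hbc ih =>
      obtain ⟨n, hn⟩ := ih
      exact ⟨n + 1, b, hn, hbc⟩
  · rintro ⟨n, hn⟩
    induction n generalizing T' with
    | zero => rw [show T' = T from hn]
    | succ n ih =>
      obtain ⟨S, hS, hST⟩ := hn
      exact ReflTransGen.tail (ih S hS) hST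

lemma meas_reachN (T : Finset Pt) (n : ℕ) (T' : Finset Pt) :
    MeasurableSet {ω : Pt → Fin 3 | reachN ω T n T'} := by
  induction n generalizing T' with
  | zero => exact MeasurableSet.const _
  | succ n ih =>
    have : {ω : Pt → Fin 3 | reachN ω T (n + 1) T'} =
        ⋃ S, ({ω | reachN ω T n S} ∩ {ω | Linked ω S T'}) := by
      ext ω
      simp [reachN]
    rw [this]
    exact MeasurableSet.iUnion fun S => (ih S).inter (meas_linked S T')

lemma meas_mem_component (T T' : Finset Pt) :
    MeasurableSet {ω : Pt → Fin 3 | T' ∈ component ω T} := by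
  have : {ω : Pt → Fin 3 | T' ∈ component ω T} = ⋃ n, {ω | reachN ω T n T'} := by
    ext ω
    simp [component, reach_iff]
  rw [this]
  exact MeasurableSet.iUnion fun n => meas_reachN T n T'

lemma meas_infinite_component (T : Finset Pt) :
    MeasurableSet {ω : Pt → Fin 3 | (component ω T).Infinite} := by
  have : {ω : Pt → Fin 3 | (component ω T).Infinite} =
      ⋂ S : Finset (Finset Pt), ⋃ T' : Finset Pt, ({_ω | T' ∉ S} ∩ {ω | T' ∈ component ω T}) := by
    ext ω
    simp only [Set.mem_ofPred_eq, Set.mem_iInter, Set.mem_iUnion, Set.mem_inter_iff]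
    constructor
    · intro h S
      obtain ⟨T', h1, h2⟩ := h.exists_notMem_finset S
      exact ⟨T', h2, h1⟩
    · intro h hfin
      obtain ⟨T', h1, h2⟩ := h hfin.toFinset
      exact h1 ((Set.Finite.mem_toFinset hfin).2 h2)
  rw [this]
  exact MeasurableSet.iInter fun S => MeasurableSet.iUnion fun T' =>
    (MeasurableSet.const _).inter (meas_mem_component T T')

/-- events about the existence of an infinite path with a property of its set of edges, which is
tested edge by edge -/
lemma meas_exists (Φ : Finset Pt → (Pt → Fin 3) → Prop) (hΦ : ∀ T, MeasurableSet {ω | Φ T ω})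
    (E : Set (Pt → Fin 3))
    (hE : ∀ ω, ω ∈ E ↔ ∃ T, TricolorEdge ω T ∧ (component ω T).Infinite ∧ Φ T ω) :
    MeasurableSet E := by
  have : E = ⋃ T, ({ω | TricolorEdge ω T} ∩ ({ω | (component ω T).Infinite} ∩ {ω | Φ T ω})) := by
    ext ω
    rw [hE]
    simp
  rw [this]
  exact MeasurableSet.iUnion fun T =>
    (meas_edge T).inter ((meas_infinite_component T).inter (hΦ T))

lemma meas_avoids (T : Finset Pt) (F : Set Pt) :
    MeasurableSet {ω : Pt → Fin 3 | Avoids (component ω T) F} := by
  have : {ω : Pt → Fin 3 | Avoids (component ω T) F} =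
      ⋂ T' : Finset Pt, ({ω | T' ∈ component ω T}ᶜ ∪ {_ω | ∀ v ∈ T', v ∉ F}) := by
    ext ω
    simp only [Avoids, Set.mem_ofPred_eq, Set.mem_iInter, Set.mem_union, Set.mem_compl_iff]
    constructor
    · intro h T'
      by_cases hT : T' ∈ component ω T
      · exact Or.inr (h T' hT)
      · exact Or.inl hT
    · intro h T' hT'
      rcases h T' with h1 | h1
      · exact absurd hT' h1
      · exact h1
  rw [this]
  exact MeasurableSet.iInter fun T' => (meas_mem_component T T').compl.union (MeasurableSet.const _)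

lemma meas_Av (F : Set Pt) : MeasurableSet (Av F) := by
  refine meas_exists (fun T ω => Avoids (component ω T) F) (fun T => meas_avoids T F) _ ?_
  intro ω
  constructor
  · rintro ⟨P, ⟨hi, T, hT, rfl⟩, hA⟩
    exact ⟨T, hT, hi, hA⟩
  · rintro ⟨T, hT, hi, hA⟩
    exact ⟨component ω T, ⟨hi, T, hT, rfl⟩, hA⟩

lemma meas_infinitely_many : MeasurableSet {ω : Pt → Fin 3 | {P | InfinitePath ω P}.Infinite} := by
  have : {ω : Pt → Fin 3 | {P | InfinitePath ω P}.Infinite} = ⋂ r : ℕ, Av (Cube 0 r) := by
    ext ω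
    rw [Set.mem_ofPred_eq, infinite_iff, Set.mem_iInter]
  rw [this]
  exact MeasurableSet.iInter fun r => meas_Av _

/-! ### The zero-one law -/

lemma zero_one (p : PMF (Fin 3)) {A : Set (Pt → Fin 3)} (hA : MeasurableSet A)
    (hinv : ∀ F : Set Pt, F.Finite → ∀ ω ω' : Pt → Fin 3, (∀ v, v ∉ F → ω v = ω' v) →
      ω ∈ A → ω' ∈ A) :
    Pr p A = 0 ∨ Pr p A = 1 := by
  classical
  let s : Pt → MeasurableSpace (Pt → Fin 3) := fun v =>
    MeasurableSpace.comap (fun ω : Pt → Fin 3 => ω v) inferInstance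
  have hind : iIndep s (Pr p) := by
    have h1 : iIndepFun (fun (i : Pt) (ω : Pt → Fin 3) => ω i) (Pr p) :=
      iIndepFun_infinitePi (P := fun _ : Pt => p.toMeasure) (X := fun _ => id)
        (fun _ => measurable_id)
    exact h1
  refine measure_zero_or_one_of_measurableSet_limsup (s := s) (f := cofinite)
    (p := Set.Finite) (ns := fun F : Finset Pt => (F : Set Pt)) ?_ hind ?_ ?_ ?_ ?_ ?_
  · intro v
    exact (measurable_pi_apply v).comap_le
  · intro t ht
    exact ht.compl_mem_cofinite
  · intro a b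
    exact ⟨a ∪ b, by simp, by simp⟩
  · intro a; exact a.finite_toSet
  · intro v; exact ⟨{v}, by simp⟩
  · rw [limsup, limsSup, MeasurableSpace.measurableSet_sInf]
    intro m hm
    simp only [Set.mem_ofPred_eq, eventually_map, eventually_cofinite] at hm
    set F : Set Pt := {v | ¬ s v ≤ m} with hF
    let φ : (Pt → Fin 3) → (Pt → Fin 3) := fun ω v => if v ∈ F then 0 else ω v
    have hφ : @Measurable _ _ m MeasurableSpace.pi φ := by
      rw [measurable_pi_iff]
      intro v
      by_cases hv : v ∈ F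
      · simp only [φ, hv, if_true]
        exact measurable_const
      · simp only [φ, hv, if_false]
        have : s v ≤ m := by
          by_contra hcon
          exact hv hcon
        exact (comap_measurable (fun ω : Pt → Fin 3 => ω v)).mono this le_rfl
    have hAφ : A = φ ⁻¹' A := by
      ext ω
      constructor
      · intro h
        exact hinv F hm ω (φ ω) (fun v hv => by simp [φ, hv]) h
      · intro h
        exact hinv F hm (φ ω) ω (fun v hv => by simp [φ, hv]) h
    rw [hAφ]
    exact hφ hA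

lemma infinitely_many_zero_one (p : PMF (Fin 3)) :
    Pr p {ω | {P | InfinitePath ω P}.Infinite} = 0 ∨
      Pr p {ω | {P | InfinitePath ω P}.Infinite} = 1 := by
  refine zero_one p meas_infinitely_many ?_
  intro F hF ω ω' hω h
  rw [Set.mem_ofPred_eq, infinite_iff] at h ⊢
  intro r
  obtain ⟨R, hR⟩ : ∃ R : ℕ, F ⊆ Cube 0 R := by
    choose f hf using exists_cube
    refine ⟨hF.toFinset.sup f, fun v hv => ?_⟩
    exact cube_mono (Finset.le_sup ((Set.Finite.mem_toFinset hF).2 hv)) (hf v)
  have h1 : ω' ∈ Av (Cube 0 (max r R)) :=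
    Av_congr (fun v hv => hω v fun hvF => hv (cube_mono (le_max_right r R) (hR hvF)))
      (h (max r R))
  exact Av_anti (cube_mono (le_max_left r R)) h1

/-! ### Translations -/

/-- translation of the colouring -/
def sh (t : Pt) (ω : Pt → Fin 3) : Pt → Fin 3 := fun v => ω (v + t)

lemma meas_sh (t : Pt) : Measurable (sh t) :=
  measurable_pi_iff.2 fun v => measurable_pi_apply (v + t)

lemma Pr_map_sh (p : PMF (Fin 3)) (t : Pt) : (Pr p).map (sh t) = Pr p := by
  have h := Measure.map_infinitePi_infinitePi_of_inj (P := fun _ : Pt => p.toMeasure)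
    (f := fun v : Pt => v + t) (add_left_injective t)
  exact h

lemma Pr_sh (p : PMF (Fin 3)) (t : Pt) {A : Set (Pt → Fin 3)} (hA : MeasurableSet A) :
    Pr p (sh t ⁻¹' A) = Pr p A := by
  conv_rhs => rw [← Pr_map_sh p t]
  rw [Measure.map_apply (meas_sh t) hA]

/-- translation of a set of cells -/
def tr (t : Pt) (T : Finset Pt) : Finset Pt := T.map (addRightEmbedding t)

lemma mem_tr {t : Pt} {T : Finset Pt} {v : Pt} : v ∈ tr t T ↔ v - t ∈ T := by
  unfold tr
  rw [Finset.mem_map]
  constructor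
  · rintro ⟨w, hw, rfl⟩
    simpa using hw
  · intro h
    exact ⟨v - t, h, by simp⟩

lemma tr_tr (s t : Pt) (T : Finset Pt) : tr s (tr t T) = tr (t + s) T := by
  ext v
  simp only [mem_tr]
  rw [show v - s - t = v - (t + s) by abel]

lemma tr_zero (T : Finset Pt) : tr 0 T = T := by
  ext v; simp [mem_tr]

lemma adj_tr {t : Pt} (ht : ∀ i, Even (t i)) {v w : Pt} (h : Adj v w) : Adj (v + t) (w + t) := by
  have hc : ∀ {v : Pt}, Cell v → Cell (v + t) := by
    rintro v (h | h)
    · exact Or.inl fun i => (h i).add (ht i)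
    · exact Or.inr fun i => (h i).add_even (ht i)
  obtain ⟨h1, h2, h3⟩ := h
  refine ⟨hc h1, hc h2, ?_⟩
  rcases h3 with ⟨i, hi, hj⟩ | h3
  · exact Or.inl ⟨i, by simpa using hi, fun j hne => by simp [hj j hne]⟩
  · exact Or.inr fun i => by simpa using h3 i

lemma clique_tr {t : Pt} (ht : ∀ i, Even (t i)) {Q : Finset Pt} (h : Clique Q) :
    Clique (tr t Q) := by
  intro v hv w hw hvw
  rw [mem_tr] at hv hw
  have := adj_tr ht (h _ hv _ hw (fun he => hvw (sub_left_injective he)))
  simpa using this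

lemma edge_tr {t : Pt} (ht : ∀ i, Even (t i)) {ω : Pt → Fin 3} {T : Finset Pt}
    (h : TricolorEdge (sh t ω) T) : TricolorEdge ω (tr t T) := by
  obtain ⟨h1, h2, h3⟩ := h
  refine ⟨by rw [tr, Finset.card_map, h1], clique_tr ht h2, fun c => ?_⟩
  obtain ⟨v, hv, hvc⟩ := h3 c
  exact ⟨v + t, by rw [mem_tr]; simpa using hv, hvc⟩

lemma linked_tr {t : Pt} (ht : ∀ i, Even (t i)) {ω : Pt → Fin 3} {T T' : Finset Pt}
    (h : Linked (sh t ω) T T') : Linked ω (tr t T) (tr t T') := by
  obtain ⟨h1, h2, Q, hQ, h3, h4⟩ := h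
  refine ⟨edge_tr ht h1, edge_tr ht h2, tr t Q, ⟨by rw [tr, Finset.card_map, hQ.1],
    clique_tr ht hQ.2⟩, ?_, ?_⟩
  · intro v hv; rw [mem_tr] at hv ⊢; exact h3 hv
  · intro v hv; rw [mem_tr] at hv ⊢; exact h4 hv

lemma reach_tr {t : Pt} (ht : ∀ i, Even (t i)) {ω : Pt → Fin 3} {T T' : Finset Pt}
    (h : T' ∈ component (sh t ω) T) : tr t T' ∈ component ω (tr t T) := by
  have h' : ReflTransGen (Linked (sh t ω)) T T' := h
  show ReflTransGen (Linked ω) (tr t T) (tr t T')
  clear h
  induction h' with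
  | refl => exact ReflTransGen.refl
  | tail _ h2 ih => exact ReflTransGen.tail ih (linked_tr ht h2)

lemma sh_sh (s t : Pt) (ω : Pt → Fin 3) : sh s (sh t ω) = sh (s + t) ω := by
  funext v
  simp [sh, add_assoc]

lemma sh_zero (ω : Pt → Fin 3) : sh 0 ω = ω := by
  funext v; simp [sh]

lemma mem_component_tr {t : Pt} (ht : ∀ i, Even (t i)) {ω : Pt → Fin 3} {T T' : Finset Pt} :
    T' ∈ component (sh t ω) T ↔ tr t T' ∈ component ω (tr t T) := by
  refine ⟨reach_tr ht, fun h => ?_⟩
  have h2 : sh (-t) (sh t ω) = ω := by rw [sh_sh, neg_add_cancel, sh_zero]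
  have ht' : ∀ i, Even ((-t) i) := fun i => by simpa using (ht i)
  have h3 := reach_tr (t := -t) ht' (ω := sh t ω) (T := tr t T) (T' := tr t T') (by rwa [h2])
  rwa [tr_tr, tr_tr, add_neg_cancel, tr_zero, tr_zero] at h3

lemma component_tr {t : Pt} (ht : ∀ i, Even (t i)) (ω : Pt → Fin 3) (T : Finset Pt) :
    component ω (tr t T) = tr t '' component (sh t ω) T := by
  ext S
  constructor
  · intro hS
    refine ⟨tr (-t) S, ?_, ?_⟩
    · rw [mem_component_tr ht, tr_tr, neg_add_cancel, tr_zero]; exact hS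
    · rw [tr_tr, neg_add_cancel, tr_zero]
  · rintro ⟨S, hS, rfl⟩
    exact reach_tr ht hS

lemma tr_injective (t : Pt) : Function.Injective (tr t) := by
  intro S T h
  have := congrArg (tr (-t)) h
  rwa [tr_tr, tr_tr, add_neg_cancel, tr_zero, tr_zero] at this

lemma path_tr {t : Pt} (ht : ∀ i, Even (t i)) {ω : Pt → Fin 3} {P : Set (Finset Pt)}
    (h : InfinitePath (sh t ω) P) : InfinitePath ω (tr t '' P) := by
  obtain ⟨hi, T, hT, rfl⟩ := h
  exact ⟨hi.image (tr_injective t).injOn, tr t T, edge_tr ht hT, (component_tr ht ω T).symm⟩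

lemma Av_tr {t : Pt} (ht : ∀ i, Even (t i)) {ω : Pt → Fin 3} {x : Pt} {r : ℕ}
    (h : sh t ω ∈ Av (Cube x r)) : ω ∈ Av (Cube (x + t) r) := by
  obtain ⟨P, hP, hA⟩ := h
  refine ⟨_, path_tr ht hP, ?_⟩
  rintro _ ⟨T, hT, rfl⟩ v hv hvc
  rw [mem_tr] at hv
  refine hA T hT _ hv fun i => ?_
  have := hvc i
  simp only [Pi.add_apply, Pi.sub_apply] at this ⊢
  rwa [show v i - t i - x i = v i - (x i + t i) by ring]

lemma Pr_Av_even (p : PMF (Fin 3)) {t : Pt} (ht : ∀ i, Even (t i)) (r : ℕ) :
    Pr p (Av (Cube t r)) = Pr p (Av (Cube 0 r)) := by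
  apply le_antisymm
  · rw [← Pr_sh p (-t) (meas_Av (Cube t r))]
    refine measure_mono fun ω hω => ?_
    have := Av_tr (t := -t) (fun i => by simpa using ht i) (x := t) (r := r) hω
    rwa [add_neg_cancel] at this
  · rw [← Pr_sh p t (meas_Av (Cube 0 r))]
    refine measure_mono fun ω hω => ?_
    have := Av_tr ht (x := 0) (r := r) hω
    rwa [zero_add] at this

lemma Pr_Av_le (p : PMF (Fin 3)) (x : Pt) (r : ℕ) :
    Pr p (Av (Cube x (r + 1))) ≤ Pr p (Av (Cube 0 r)) := by
  -- an even point close to `x`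
  let t : Pt := fun i => 2 * (x i / 2)
  have ht : ∀ i, Even (t i) := fun i => even_two_mul _
  rw [← Pr_Av_even p ht r]
  refine measure_mono (Av_anti ?_)
  intro v hv i
  have h1 := hv i
  simp only [t] at h1
  rw [abs_le] at h1 ⊢
  push_cast
  omega

/-! ### The dichotomy -/

/-- Unless there are almost surely infinitely many infinite paths, the probability that some
infinite path avoids a given cube of side `r` tends to zero with `r`, uniformly in the cube. -/
lemma dichotomy (p : PMF (Fin 3))
    (h : ¬ ∀ᵐ ω ∂(Pr p), {P | InfinitePath ω P}.Infinite) {ε : ENNReal} (hε : 0 < ε) :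
    ∃ r : ℕ, ∀ x : Pt, Pr p (Av (Cube x r)) < ε := by
  have h0 : Pr p {ω | {P | InfinitePath ω P}.Infinite} = 0 := by
    rcases infinitely_many_zero_one p with h1 | h1
    · exact h1
    · exfalso
      apply h
      rw [ae_iff, ← Set.compl_ofPred]
      rw [measure_compl meas_infinitely_many (measure_ne_top _ _), h1, measure_univ,
        tsub_self]
  have hset : {ω : Pt → Fin 3 | {P | InfinitePath ω P}.Infinite} = ⋂ r : ℕ, Av (Cube 0 r) := by
    ext ω
    rw [Set.mem_ofPred_eq, infinite_iff, Set.mem_iInter]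
  have hlim : Tendsto (fun r : ℕ => Pr p (Av (Cube 0 r))) atTop (nhds 0) := by
    have := tendsto_measure_iInter_atTop (μ := Pr p) (s := fun r : ℕ => Av (Cube 0 r))
      (fun r => (meas_Av _).nullMeasurableSet) (fun r s hrs => Av_anti (cube_mono hrs))
      ⟨0, measure_ne_top _ _⟩
    rwa [← hset, h0] at this
  obtain ⟨r, hr⟩ := ((tendsto_order.1 hlim).2 ε hε).exists
  exact ⟨r + 1, fun x => (Pr_Av_le p x r).trans_lt hr⟩

end Pool.Agent.Helper939.Tri
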